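import Pool.Agent.Helper74.FP.Goals

/-!
# FP, F4: models of free products
-/

set_option autoImplicit false

namespace Pool.Agent.Helper6.FP

open Pool.Agent.Helper52.Wq2 Pool.Agent.Helper61.NW Pool.Agent.Helper74.FP Monoid
open Monoid.CoprodI (Word of)

universe u

theorem meet {V : Type u} {G : SimpleGraph V} {U t A : Set V} (ht : Conn G t) (htU : t ⊆ U)
    (hcl : ∀ a ∈ A, ∀ b ∈ U, G.Adj a b → b ∈ A) (hm : (A ∩ t).Nonempty) : t ⊆ A := by
  intro x hx
  exact (ht.2 (A ∩ t) Set.inter_subset_right hm
    (fun y hy z hz hyz => ⟨hcl y hy.1 z (htU hz) hyz, hz⟩) hx).1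

section words

variable {ι : Type} {A B : ι → Type u} [∀ i, Group (A i)] [∀ i, Group (B i)]

/-- The image of a reduced word under injective maps. -/
def fw (r : ∀ i, A i → B i) (hr : ∀ i a, a ≠ 1 → r i a ≠ 1) (w : Word A) : Word B where
  toList := w.toList.map (fun l => ⟨l.1, r l.1 l.2⟩)
  ne_one := by
    intro l hl
    rw [List.mem_map] at hl
    obtain ⟨l', hl', rfl⟩ := hl
    exact hr _ _ (w.ne_one l' hl')
  chain_ne := by
    rw [List.isChain_map]
    exact w.chain_ne

variable {r : ∀ i, A i → B i} {hr : ∀ i a, a ≠ 1 → r i a ≠ 1}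

theorem fw_fst (w : Word A) : (fw r hr w).fstIdx = w.fstIdx := by
  have e : (fw r hr w).fstIdx =
      (w.toList.map (fun l => (⟨l.1, r l.1 l.2⟩ : Σ i, B i))).head?.map Sigma.fst := rfl
  rw [e, Word.fstIdx]
  cases w.toList with
  | nil => rfl
  | cons a l => rfl

theorem fw_inj (hinj : ∀ i, Function.Injective (r i)) : Function.Injective (fw r hr) := by
  intro w w' h
  have h1 : (fw r hr w).toList = (fw r hr w').toList := by rw [h]
  have h2 : Function.Injective (fun l : Σ i, A i => (⟨l.1, r l.1 l.2⟩ : Σ i, B i)) := by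
    rintro ⟨i, a⟩ ⟨j, b⟩ hab
    simp only [Sigma.mk.injEq] at hab
    obtain ⟨h3, h4⟩ := hab
    subst h3
    rw [hinj i (eq_of_heq h4)]
  exact Word.ext (List.map_injective_iff.2 h2 h1)

theorem fw_cons {i : ι} (a : A i) (t : Word A) (ht : t.fstIdx ≠ some i) (ha : a ≠ 1) :
    fw r hr (Word.cons a t ht ha) =
      Word.cons (r i a) (fw r hr t) (by rw [fw_fst]; exact ht) (hr i a ha) := by
  apply Word.ext
  rfl

theorem fw_empty : fw r hr Word.empty = Word.empty := by
  apply Word.ext
  rfl

end words

/-- **F4.** -/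
theorem f4 : Pool.Agent.Helper74.FP.F4Stmt.{u} := by
  classical
  intro ι A B _ _ S T V hS hT hV h1V
  -- representatives
  have hne : ∀ i a, (V i a).Nonempty := fun i a => ((hV i).1 a).1
  let r : ∀ i, A i → B i := fun i a => if a = 1 then 1 else (hne i a).some
  have hrV : ∀ i a, r i a ∈ V i a := by
    intro i a
    by_cases ha : a = 1
    · simp only [r, ha, if_true]; exact h1V i
    · simp only [r, ha, if_false]; exact (hne i a).some_mem
  have hdis : ∀ i a a' x, x ∈ V i a → x ∈ V i a' → a = a' := fun i => (hV i).2.1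
  have hr1 : ∀ i, r i 1 = 1 := fun i => by simp [r]
  have hinj : ∀ i, Function.Injective (r i) := by
    intro i a a' h
    exact hdis i a a' _ (hrV i a) (h ▸ hrV i a')
  have hr : ∀ i a, a ≠ 1 → r i a ≠ 1 := by
    intro i a ha h
    exact ha (hinj i (h.trans (hr1 i).symm))
  let F : Word A → Word B := fw r hr
  have hF : ∀ w, (F w).fstIdx = w.fstIdx := fun w => fw_fst w
  have hFr : ∀ (i : ι) (p : Word.Pair A i), F (Word.rcons p) =
      Word.rcons ⟨r i p.head, F p.tail, by rw [hF]; exact p.fstIdx_ne⟩ := by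
    intro i p
    by_cases h : p.head = 1
    · have h' : r i p.head = 1 := by rw [h]; exact hr1 i
      simp only [Word.rcons, dif_pos h, dif_pos h']
    · have h' : r i p.head ≠ 1 := hr i _ h
      simp only [Word.rcons, dif_neg h, dif_neg h']
      exact fw_cons _ _ _ _
  -- branch sets
  let Φ : Word A → Set (CoprodI B) := fun w => {x | x = (F w).prod ∨
    ∃ (i : ι) (p : Word.Pair A i) (b : B i), Word.rcons p = w ∧ b ∈ V i p.head ∧
      x = of b * (F p.tail).prod}
  have hprod : ∀ (i : ι) (p : Word.Pair A i), (F (Word.rcons p)).prod =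
      of (r i p.head) * (F p.tail).prod := by
    intro i p
    rw [hFr, Word.prod_rcons]
  have hpinjA : ∀ w w' : Word A, w.prod = w'.prod → w = w' := fun w w' h =>
    Word.equiv.symm.injective h
  have hpinjB : ∀ w w' : Word B, w.prod = w'.prod → w = w' := fun w w' h =>
    Word.equiv.symm.injective h
  have hadjT : ∀ (i : ι) (b b' : B i) (X : CoprodI B), (cayL (T i)).Adj b b' →
      (cayL (US T)).Adj (of b * X) (of b' * X) := by
    intro i b b' X h
    unfold cayL at h ⊢
    rw [SimpleGraph.fromRel_adj] at h ⊢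
    refine ⟨fun he => h.1 (CoprodI.of_injective i (mul_right_cancel he)), ?_⟩
    rcases h.2 with h2 | h2
    · left
      refine ⟨i, _, h2, ?_⟩
      rw [map_mul, map_inv]; group
    · right
      refine ⟨i, _, h2, ?_⟩
      rw [map_mul, map_inv]; group
  -- normal form of the elements of the branch sets
  have hnf : ∀ w, ∀ x ∈ Φ w, (x = 1 ∧ w = Word.empty) ∨
      ∃ (i : ι) (b : B i) (a : A i) (t : Word A) (ht : t.fstIdx ≠ some i)
        (ht' : (F t).fstIdx ≠ some i) (hb : b ≠ 1),
        b ∈ V i a ∧ w = Word.rcons ⟨a, t, ht⟩ ∧ x = (Word.cons b (F t) ht' hb).prod := by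
    have h0 : ∀ w, (((F w).prod = 1 ∧ w = Word.empty) ∨
      ∃ (i : ι) (b : B i) (a : A i) (t : Word A) (ht : t.fstIdx ≠ some i)
        (ht' : (F t).fstIdx ≠ some i) (hb : b ≠ 1),
        b ∈ V i a ∧ w = Word.rcons ⟨a, t, ht⟩ ∧
          (F w).prod = (Word.cons b (F t) ht' hb).prod) := by
      intro w
      induction w using Word.consRecOn with
      | empty =>
        left
        refine ⟨?_, rfl⟩
        show (fw r hr Word.empty).prod = 1
        rw [fw_empty, Word.prod_empty]
      | cons i a t h1 h2 _ =>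
        right
        refine ⟨i, r i a, a, t, h1, by rw [hF]; exact h1, hr i a h2, hrV i a, ?_, ?_⟩
        · simp only [Word.rcons, dif_neg h2]
        · show (fw r hr (Word.cons a t h1 h2)).prod = _
          rw [fw_cons]
    rintro w x (hx | ⟨i, p, b, hp, hb, hx⟩)
    · rw [hx]; exact h0 w
    · by_cases hb1 : b = 1
      · have hp1 : p.head = 1 := hdis i _ _ _ hb (by rw [hb1]; exact h1V i)
        have hw : w = p.tail := by
          rw [← hp]; simp only [Word.rcons, dif_pos hp1]
        have hx' : x = (F w).prod := by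
          rw [hx, hb1, map_one, one_mul, hw]
        rw [hx']; exact h0 w
      · right
        refine ⟨i, b, p.head, p.tail, p.fstIdx_ne, by rw [hF]; exact p.fstIdx_ne, hb1, hb,
          hp.symm, ?_⟩
        rw [Word.prod_cons, hx]
  have hΦdis : ∀ w w' x, x ∈ Φ w → x ∈ Φ w' → w = w' := by
    intro w w' x hx hx'
    rcases hnf w x hx with ⟨h1, h2⟩ | ⟨i, b, a, t, ht, ht', hb, hba, hw, hxe⟩
    · rcases hnf w' x hx' with ⟨h3, h4⟩ | ⟨j, c, a', t', kt, kt', hc, hca, hw', hxe'⟩
      · rw [h2, h4]
      · exfalso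
        have h5 : (Word.empty : Word B) = Word.cons c (F t') kt' hc := by
          apply hpinjB; rw [Word.prod_empty, ← hxe', h1]
        have h6 := congrArg Word.toList h5
        simp [Word.cons] at h6
    · rcases hnf w' x hx' with ⟨h3, h4⟩ | ⟨j, c, a', t', kt, kt', hc, hca, hw', hxe'⟩
      · exfalso
        have h5 : (Word.empty : Word B) = Word.cons b (F t) ht' hb := by
          apply hpinjB; rw [Word.prod_empty, ← hxe, h3]
        have h6 := congrArg Word.toList h5
        simp [Word.cons] at h6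
      · have h5 : Word.cons b (F t) ht' hb = Word.cons c (F t') kt' hc := by
          apply hpinjB; rw [← hxe, hxe']
        have h6 := congrArg Word.toList h5
        simp only [Word.cons, List.cons.injEq, Sigma.mk.injEq] at h6
        obtain ⟨⟨h7, h8⟩, h9⟩ := h6
        subst h7
        have h10 : b = c := eq_of_heq h8
        subst h10
        have h11 : F t = F t' := Word.ext h9
        have h12 : t = t' := fw_inj hinj h11
        subst h12
        have h13 : a = a' := hdis _ _ _ _ hba hca
        subst h13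
        rw [hw, hw']
  refine ⟨fun g => Φ (Word.equiv g), ?_, ?_, ?_⟩
  · -- connected
    intro g
    have hself : ∀ (i : ι) (p : Word.Pair A i),
        (F (Word.rcons p)).prod ∈ {x | ∃ b ∈ V i p.head, x = of b * (F p.tail).prod} := by
      intro i p
      exact ⟨r i p.head, hrV i _, hprod i p⟩
    have hcon : ∀ (i : ι) (p : Word.Pair A i), Conn (cayL (US T))
        {x | ∃ b ∈ V i p.head, x = of b * (F p.tail).prod} := by
      intro i p
      have h := ((hV i).1 p.head).image (fun b => of b * (F p.tail).prod)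
        (G' := cayL (US T)) (fun a _ b _ hab => Or.inr (hadjT i a b _ hab))
      have e : ((fun b => of b * (F p.tail).prod) '' V i p.head) =
          {x | ∃ b ∈ V i p.head, x = of b * (F p.tail).prod} := by
        ext x
        constructor
        · rintro ⟨b, hb, rfl⟩; exact ⟨b, hb, rfl⟩
        · rintro ⟨b, hb, rfl⟩; exact ⟨b, hb, rfl⟩
      rw [← e]; exact h
    refine ⟨⟨(F (Word.equiv g)).prod, Or.inl rfl⟩, ?_⟩
    intro A' hA' hne' hcl
    have hsub : ∀ (i : ι) (p : Word.Pair A i), Word.rcons p = Word.equiv g →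
        {x | ∃ b ∈ V i p.head, x = of b * (F p.tail).prod} ⊆ Φ (Word.equiv g) := by
      rintro i p hp x ⟨b, hb, hx⟩
      exact Or.inr ⟨i, p, b, hp, hb, hx⟩
    have hroot : (F (Word.equiv g)).prod ∈ A' := by
      obtain ⟨x, hx⟩ := hne'
      rcases hA' hx with h | ⟨i, p, b, hp, hb, hxe⟩
      · rw [← h]; exact hx
      · have h2 := meet (hcon i p) (hsub i p hp) hcl ⟨x, hx, b, hb, hxe⟩
        have h3 := h2 (hself i p)
        rwa [hp] at h3
    rintro x (h | ⟨i, p, b, hp, hb, hxe⟩)
    · rw [h]; exact hroot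
    · have h2 := meet (hcon i p) (hsub i p hp) hcl
        ⟨(F (Word.rcons p)).prod, by rw [hp]; exact hroot, hself i p⟩
      exact h2 ⟨b, hb, hxe⟩
  · intro g g' x hx hx'
    exact Word.equiv.injective (hΦdis _ _ _ hx hx')
  · -- edges
    have key : ∀ (g : CoprodI A) (i : ι), ∀ s ∈ S i, ∃ x ∈ Φ (Word.equiv g),
        ∃ y ∈ Φ (Word.equiv (of s * g)), (cayL (US T)).Adj x y := by
      intro g i s hs
      have hs1 : s ≠ 1 := fun h => (hS i).2.2 (h ▸ hs)
      set p := Word.equivPair i (Word.equiv g) with hp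
      have hp1 : Word.rcons p = Word.equiv g := by
        rw [← Word.equivPair_symm, hp, Equiv.symm_apply_apply]
      have hp2 : Word.rcons ⟨s * p.head, p.tail, p.fstIdx_ne⟩ = Word.equiv (of s * g) := by
        apply hpinjA
        have e1 : (Word.equiv (of s * g)).prod = of s * g :=
          Word.equiv.symm_apply_apply (of s * g)
        have e2 : (Word.equiv g).prod = g := Word.equiv.symm_apply_apply g
        rw [e1, Word.prod_rcons]
        show of (s * p.head) * p.tail.prod = of s * g
        rw [map_mul, mul_assoc, ← Word.prod_rcons, hp1, e2]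
      have hadj : (cayL (S i)).Adj p.head (s * p.head) := by
        unfold cayL
        rw [SimpleGraph.fromRel_adj]
        refine ⟨fun h => hs1 ?_, Or.inl ?_⟩
        · exact mul_right_cancel (b := p.head) (by rw [one_mul]; exact h.symm)
        · rw [mul_inv_cancel_right]; exact hs
      obtain ⟨b, hb, b', hb', hbb⟩ := (hV i).2.2 _ _ hadj
      exact ⟨of b * (F p.tail).prod, Or.inr ⟨i, p, b, hp1, hb, rfl⟩,
        of b' * (F p.tail).prod,
        Or.inr ⟨i, ⟨s * p.head, p.tail, p.fstIdx_ne⟩, b', hp2, hb', rfl⟩, hadjT i b b' _ hbb⟩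
    intro g g' hgg
    unfold cayL at hgg
    rw [SimpleGraph.fromRel_adj] at hgg
    rcases hgg.2 with ⟨i, s, hs, he⟩ | ⟨i, s, hs, he⟩
    · obtain ⟨x, hx, y, hy, hxy⟩ := key g i s hs
      have e : of s * g = g' := by rw [← he]; group
      rw [e] at hy
      exact ⟨x, hx, y, hy, hxy⟩
    · obtain ⟨x, hx, y, hy, hxy⟩ := key g' i s hs
      have e : of s * g' = g := by rw [← he]; group
      rw [e] at hy
      exact ⟨y, hy, x, hx, hxy.symm⟩

end Pool.Agent.Helper6.FP
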